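import Pool.Agent.H44.AR.BasicA

/-!
# All arities: unary maps given by blocks (MP_6ab439_lc, board ara_modules, UKM)
-/

set_option autoImplicit false
set_option linter.unusedVariables false

namespace Pool.Agent.H85.AR

open Pool.Agent.H68.BP Pool.Agent.H58.SF Pool.Agent.H53.GC Pool.Agent.H53.NR Pool.Agent.H53.GR
open Pool.Agent.H57.AR Pool.Agent.H44.AR
open Pool.Agent.H57.SO (Pal Col vt Sb FBl)
open Pool.Agent.H57.EQ (Cx)
open Classical

section

variable {V W Z I : Type} {σ ρ : Sig} [LinearOrder V] {𝔹 : Str ρ V} {Q : V → I → V}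

/-- restriction of a configuration of blocks -/
theorem blk_comp {G : W → V} {z : W → I → V} (h : Blk 𝔹 Q G z) (v : Z → W) :
    Blk 𝔹 Q (fun a => G (v a)) (fun a => z (v a)) :=
  ⟨fun a l b l' => h.lt (v a) l (v b) l', fun r w => h.rel r (fun i => (v (w i).1, (w i).2))⟩

/-- The ordered type of a configuration of blocks depends only on that of the elements. -/
theorem blk_tpo (hQQ : ∀ x y, ty 𝔹 x = ty 𝔹 y → Q x = Q y) {u u' : W → V} {z z' : W → I → V}
    (hu : tpo 𝔹 u = tpo 𝔹 u') (h : Blk 𝔹 Q u z) (h' : Blk 𝔹 Q u' z') :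
    tpo 𝔹 (fun q : W × I => z q.1 q.2) = tpo 𝔹 (fun q : W × I => z' q.1 q.2) := by
  have hQ : ∀ a, Q (u a) = Q (u' a) := fun a => hQQ _ _ (ty_of_tpo hu a)
  obtain ⟨hr, hl⟩ := tpo_eq_iff.1 hu
  refine tpo_eq_iff.2 ⟨fun r w => ?_, fun a b => ?_⟩
  · rw [h.rel r w, h'.rel r w]
    refine or_congr (and_congr ?_ ?_) (exists_congr fun l => and_congr ?_ ?_)
    · exact forall_congr' fun i => forall_congr' fun j => eq_of_tpo hu _ _
    · simp only [hQ]
    · simp only [hQ]
    · exact hr r (fun i => (w i).1)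
  · rw [h.lt, h'.lt, hQ, hQ, hl]

theorem ty_blk (hQt : ∀ x l, ty 𝔹 (Q x l) = ty 𝔹 x) {G : W → V} {z : W → I → V}
    (h : Blk 𝔹 Q G z) (a : W) (l : I) : ty 𝔹 (z a l) = ty 𝔹 (G a) := by
  funext r
  refine propext ((h.rel r (fun _ => (a, l))).trans ?_)
  constructor
  · rintro (h1 | ⟨l', h1⟩)
    · have h2 := congrFun (hQt (G a) l) r
      exact h2 ▸ h1.2
    · exact h1.2
  · intro h1
    exact Or.inr ⟨l, fun _ => rfl, h1⟩

/-- each block is a copy -/
theorem blk_copy (hQt : ∀ x l, ty 𝔹 (Q x l) = ty 𝔹 x) {G : W → V} {z : W → I → V}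
    (h : Blk 𝔹 Q G z) (a : W) : tpo 𝔹 (z a) = tpo 𝔹 (Q (G a)) := by
  refine tpo_eq_iff.2 ⟨fun r w => ?_, fun l l' => ?_⟩
  · rw [h.rel r (fun i => (a, w i))]
    constructor
    · rintro (h1 | ⟨l, h1, h2⟩)
      · exact h1.2
      · have h3 : (fun i => Q (G a) (w i)) = fun _ => Q (G a) l := funext h1
        rw [h3]
        have h4 : ty 𝔹 (Q (G a) l) r = ty 𝔹 (G a) r := congrFun (hQt (G a) l) r
        show ty 𝔹 (Q (G a) l) r
        rw [h4]
        exact h2
    · intro h1
      exact Or.inl ⟨fun _ _ => rfl, h1⟩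
  · rw [h.lt]
    constructor
    · rintro (h1 | h1)
      · exact h1
      · exact absurd h1.2 (lt_irrefl _)
    · exact Or.inl

/-- each coordinate is a copy -/
theorem blk_sameD (har : ∀ r, 1 ≤ ρ.ar r) (hQQ : ∀ x y, ty 𝔹 x = ty 𝔹 y → Q x = Q y)
    (hQt : ∀ x l, ty 𝔹 (Q x l) = ty 𝔹 x) {G : W → V} {z : W → I → V} (h : Blk 𝔹 Q G z) (i : I)
    (D : Set (T1 ρ)) : SameD 𝔹 D G (fun w => z w i) := by
  refine ⟨fun a => ty_blk hQt h a i, fun a b _ _ => ⟨fun he => ?_, fun he => ?_⟩, fun r w _ => ?_⟩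
  · have he' : z a i = z b i := he
    have h1 : Q (G a) = Q (G b) := by
      refine hQQ _ _ ?_
      rw [← ty_blk hQt h a i, ← ty_blk hQt h b i, he']
    have h2 := h.lt a i b i
    have h3 := h.lt b i a i
    rw [h1, he'] at h2
    rw [h1, he'] at h3
    refine le_antisymm (not_lt.1 fun h4 => lt_irrefl _ (h3.2 (Or.inr ⟨rfl, h4⟩)))
      (not_lt.1 fun h4 => lt_irrefl _ (h2.2 (Or.inr ⟨rfl, h4⟩)))
  · have he' : G a = G b := he
    have h2 := h.lt a i b i
    have h3 := h.lt b i a i
    rw [he'] at h2 h3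
    refine le_antisymm (not_lt.1 fun h4 => ?_) (not_lt.1 fun h4 => ?_)
    · rcases h3.1 h4 with h5 | h5
      · exact lt_irrefl _ h5
      · exact lt_irrefl _ h5.2
    · rcases h2.1 h4 with h5 | h5
      · exact lt_irrefl _ h5
      · exact lt_irrefl _ h5.2
  · rw [h.rel r (fun j => (w j, i))]
    constructor
    · rintro (⟨h1, h2⟩ | ⟨l, -, h2⟩)
      · obtain ⟨j0⟩ : Nonempty (Fin (ρ.ar r)) := ⟨⟨0, har r⟩⟩
        have h3 : ∀ j, G (w j) = G (w j0) := fun j => h1 j j0
        have h4 : (fun j => Q (G (w j)) i) = fun _ => Q (G (w j0)) i :=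
          funext fun j => by rw [h3 j]
        have h5 : (fun j => G (w j)) = fun _ => G (w j0) := funext h3
        rw [h5]
        have h6 : ty 𝔹 (Q (G (w j0)) i) r = ty 𝔹 (G (w j0)) r := congrFun (hQt _ i) r
        show ty 𝔹 (G (w j0)) r
        rw [← h6]
        have h7 : 𝔹 r (fun j => Q (G (w j)) i) := h2
        rw [h4] at h7
        exact h7
      · exact h2
    · intro h1
      exact Or.inr ⟨i, fun _ => rfl, h1⟩

/-- the unary map -/
noncomputable def mu (𝔹 : Str ρ V) (Q : V → I → V) (h : OT ρ (I → V)) (k : ℕ)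
    (t : OT ρ (Fin k)) : OT ρ (Fin k) :=
  if hx : ∃ (u : Fin k → V) (z : Fin k → I → V), tpo 𝔹 u = t ∧ Blk 𝔹 Q u z then
    pullO h hx.choose_spec.choose else t

theorem mu_eq {h : OT ρ (I → V)} (ht : TID 𝔹 ∅ h) (hQQ : ∀ x y, ty 𝔹 x = ty 𝔹 y → Q x = Q y)
    {G : W → V} {z : W → I → V} (hz : Blk 𝔹 Q G z) (k : ℕ) (v : Fin k → W) :
    mu 𝔹 Q h k (tpo 𝔹 (fun a => G (v a))) = pullO h (fun a => z (v a)) := by
  have hx : ∃ (u : Fin k → V) (z : Fin k → I → V), tpo 𝔹 u = tpo 𝔹 (fun a => G (v a)) ∧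
      Blk 𝔹 Q u z := ⟨_, _, rfl, blk_comp hz v⟩
  unfold mu
  rw [dif_pos hx]
  have h1 := hx.choose_spec.choose_spec
  exact ht.tpo (blk_tpo hQQ h1.1 h1.2 (blk_comp hz v))

end

theorem pf_UKM (hBLC : T_BLC) (hFRB : T_FRB) : T_UKM := by
  intro σ ρ V _ 𝔸 𝔹 M hU D h hs s q Q hq hQs hQt hQQ
  have har : ∀ r, 1 ≤ ρ.ar r := fun r => (hU.ar r).1
  have ht : TID 𝔹 ∅ h := hs.tid.mono (Set.empty_subset _)
  have hty : ∀ x l, ty 𝔹 (Q x l) = ty 𝔹 x := by
    intro x l
    by_cases hx : ty 𝔹 x = s
    · rw [hQs x hx, hq, hx]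
    · exact (hQt x hx).2 l
  have ex := hBLC ρ V 𝔹 M hU s q Q hq hQs hQt hQQ
  refine ⟨mu 𝔹 Q h, ?_, ?_, ?_⟩
  · intro W _ G
    obtain ⟨z, hz⟩ := ex W G
    obtain ⟨ψ, h1, h2⟩ := hs.pm W (fun i w => z w i)
    refine ⟨ψ, fun l y hy => h1 l y fun i => ?_, fun k v => ?_⟩
    · exact hs.blind l _ _ hy ((blk_sameD har hQQ hty hz i D).comp y)
    · rw [mu_eq ht hQQ hz k v]
      exact congrArg (fun t => pullO t v) h2
  · intro x
    obtain ⟨z, hz⟩ := ex (Fin 1) (fun _ => x)
    unfold tm
    rw [← tpo_const, mu_eq ht hQQ hz 1 (fun a => a)]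
    have h1 := blk_copy hty hz 0
    have h2 : pullO h (fun _ : Fin 1 => z 0) = pullO h (fun _ : Fin 1 => Q x) :=
      ht.tpo (tpo_comp h1 (fun q : Fin 1 × Fin 6 => q.2))
    show tyO (pullO h (fun _ : Fin 1 => z 0)) 0 = tyO (pullO h (fun _ : Fin 1 => Q x)) 0
    rw [h2]
  · intro z z' htw heq
    obtain ⟨p, hp⟩ := (hFRB ρ V 𝔹 M hU).1 (q 0) (q 0)
    rw [hq] at hp
    have hp01 : p 0 < p 1 := by
      have h1 : (p 0 < p 1) = ((0 : Fin 2) = 0 ∧ (1 : Fin 2) = 1) :=
        congrFun (congrFun (congrArg Prod.snd hp) 0) 1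
      rw [h1]
      exact ⟨rfl, rfl⟩
    have hpr : ∀ (r : Fin ρ.m) (t : Fin (ρ.ar r) → Fin 2), 𝔹 r (fun i => p (t i)) ↔
        ((∀ i, t i = 0) ∧ s r) ∨ ((∀ i, t i = 1) ∧ s r) := fun r t =>
      iff_of_eq (congrFun (congrFun (congrArg Prod.fst hp) r) t)
    have hpt : ∀ a, ty 𝔹 (p a) = s := by
      intro a
      funext r
      refine propext ((hpr r (fun _ => a)).trans ?_)
      constructor
      · rintro (h1 | h1)
        · exact h1.2
        · exact h1.2
      · intro h1
        have h2 : a = 0 ∨ a = 1 := by omega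
        rcases h2 with rfl | rfl
        · exact Or.inl ⟨fun _ => rfl, h1⟩
        · exact Or.inr ⟨fun _ => rfl, h1⟩
    have hQp : ∀ a, Q (p a) = q := fun a => hQs _ (hpt a)
    obtain ⟨w, hw⟩ := ex (Fin 2) p
    have hcp : ∀ l l', z l < z l' ↔ q l < q l' := (tpo_eq_iff.1 htw.cp).2
    have hcp' : ∀ l l', z' l < z' l' ↔ q l < q l' := (tpo_eq_iff.1 htw.cp').2
    have hcr := (tpo_eq_iff.1 htw.cp).1
    have hcr' := (tpo_eq_iff.1 htw.cp').1
    have hone : ∀ a : Fin 2, a = 0 ∨ a = 1 := fun a => by omega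
    have hkey : tpo 𝔹 (fun y : Fin 2 × Fin 6 => w y.1 y.2) =
        tpo 𝔹 (fun y : Fin 2 × Fin 6 => (![z, z'] : Fin 2 → Fin 6 → V) y.1 y.2) := by
      refine tpo_eq_iff.2 ⟨fun r t => ?_, fun a b => ?_⟩
      · have hL : 𝔹 r (fun i => w (t i).1 (t i).2) ↔
            ((∀ i j, (t i).1 = (t j).1) ∧ 𝔹 r (fun i => q (t i).2)) := by
          rw [hw.rel r t]
          simp only [hQp]
          constructor
          · rintro (⟨h1, h2⟩ | ⟨l, h1, h2⟩)
            · refine ⟨fun i j => ?_, h2⟩
              have h3 := h1 i j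
              rcases hone (t i).1 with h4 | h4 <;> rcases hone (t j).1 with h5 | h5
              · rw [h4, h5]
              · rw [h4, h5] at h3
                exact absurd h3 hp01.ne
              · rw [h4, h5] at h3
                exact absurd h3 hp01.ne'
              · rw [h4, h5]
            · have h3 : (fun i => q (t i).2) = fun _ => q l := funext h1
              rw [h3]
              have h4 : ty 𝔹 (q l) r = s r := congrFun (hq l) r
              rcases (hpr r (fun i => (t i).1)).1 h2 with h5 | h5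
              · exact ⟨fun i j => (h5.1 i).trans (h5.1 j).symm, h4.mpr h5.2⟩
              · exact ⟨fun i j => (h5.1 i).trans (h5.1 j).symm, h4.mpr h5.2⟩
          · rintro ⟨h1, h2⟩
            exact Or.inl ⟨fun i j => by rw [h1 i j], h2⟩
        rw [hL]
        constructor
        · rintro ⟨h1, h2⟩
          obtain ⟨j0⟩ : Nonempty (Fin (ρ.ar r)) := ⟨⟨0, har r⟩⟩
          rcases hone (t j0).1 with h3 | h3
          · have h4 : (fun i => (![z, z'] : Fin 2 → Fin 6 → V) (t i).1 (t i).2) =
                fun i => z (t i).2 := by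
              funext i
              rw [h1 i j0, h3]
              rfl
            show 𝔹 r (fun i => (![z, z'] : Fin 2 → Fin 6 → V) (t i).1 (t i).2)
            rw [h4]
            exact (hcr r (fun i => (t i).2)).2 h2
          · have h4 : (fun i => (![z, z'] : Fin 2 → Fin 6 → V) (t i).1 (t i).2) =
                fun i => z' (t i).2 := by
              funext i
              rw [h1 i j0, h3]
              rfl
            show 𝔹 r (fun i => (![z, z'] : Fin 2 → Fin 6 → V) (t i).1 (t i).2)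
            rw [h4]
            exact (hcr' r (fun i => (t i).2)).2 h2
        · intro h1
          have h1' : 𝔹 r (fun i => (![z, z'] : Fin 2 → Fin 6 → V) (t i).1 (t i).2) := h1
          have h2 : (fun i => (![z, z'] : Fin 2 → Fin 6 → V) (t i).1 (t i).2) =
              fun i => Sum.elim z z' (if (t i).1 = 0 then Sum.inl (t i).2 else
                Sum.inr (t i).2) := by
            funext i
            rcases hone (t i).1 with h3 | h3
            · rw [h3, if_pos rfl]
              rfl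
            · rw [h3, if_neg (by decide)]
              rfl
          rw [h2] at h1'
          rcases htw.free r _ h1' with h3 | h3
          · have h4 : ∀ i, (t i).1 = 0 := by
              intro i
              by_contra h5
              obtain ⟨j, hj⟩ := h3 i
              rw [if_neg h5] at hj
              cases hj
            refine ⟨fun i j => (h4 i).trans (h4 j).symm, ?_⟩
            refine (hcr r (fun i => (t i).2)).1 ?_
            have h5 : (fun i => Sum.elim z z' (if (t i).1 = 0 then Sum.inl (t i).2 else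
                Sum.inr (t i).2)) = fun i => z (t i).2 := by
              funext i
              rw [if_pos (h4 i)]
              rfl
            rw [h5] at h1'
            exact h1'
          · have h4 : ∀ i, (t i).1 = 1 := by
              intro i
              rcases hone (t i).1 with h5 | h5
              · obtain ⟨j, hj⟩ := h3 i
                rw [if_pos h5] at hj
                cases hj
              · exact h5
            refine ⟨fun i j => (h4 i).trans (h4 j).symm, ?_⟩
            refine (hcr' r (fun i => (t i).2)).1 ?_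
            have h5 : (fun i => Sum.elim z z' (if (t i).1 = 0 then Sum.inl (t i).2 else
                Sum.inr (t i).2)) = fun i => z' (t i).2 := by
              funext i
              rw [if_neg (by rw [h4 i]; decide)]
              rfl
            rw [h5] at h1'
            exact h1'
      · obtain ⟨a, l⟩ := a
        obtain ⟨b, l'⟩ := b
        have h1 := hw.lt a l b l'
        rw [hQp, hQp] at h1
        refine h1.trans ?_
        rcases hone a with rfl | rfl <;> rcases hone b with rfl | rfl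
        · refine Iff.trans ?_ (hcp l l').symm
          exact ⟨fun h2 => h2.elim id fun h3 => absurd h3.2 (lt_irrefl _), Or.inl⟩
        · refine Iff.trans ?_ (htw.lt l l').symm
          rw [le_iff_lt_or_eq]
          exact or_congr Iff.rfl ⟨fun h2 => h2.1, fun h2 => ⟨h2, hp01⟩⟩
        · refine Iff.trans ?_ (htw.gt l l').symm
          exact ⟨fun h2 => h2.elim id fun h3 => absurd h3.2 (lt_asymm hp01), Or.inl⟩
        · refine Iff.trans ?_ (hcp' l l').symm
          exact ⟨fun h2 => h2.elim id fun h3 => absurd h3.2 (lt_irrefl _), Or.inl⟩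
    unfold Clp
    rw [← hp, mu_eq ht hQQ hw 2 (fun a => a)]
    have h2 : pullO h w = pullO h (![z, z'] : Fin 2 → Fin 6 → V) := ht.tpo hkey
    show eqO (pullO h w) 0 1
    rw [h2]
    exact heq

end Pool.Agent.H85.AR
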